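import Pool.Agent.N162.GP.Facts2
import Pool.Agent.N162.GP.Def
import Pool.Agent.N162.GP.Final3

/-!
# Tensor differentials on the varieties dominated by varieties over a complete intersection

Let `V` be a smooth complete intersection of dimension `n ≥ 1` and of codimension at least two in a
projective space with `K_V = O(m)`, or more generally any variety in projective `(M + 1)`-space which is
cut out by equations of degree at most `D` and has the regular canonical forms `P(x) ω₀` for all forms
`P` of degree `m` (`LowDegree`, `Pool/Agent/N162/GP/Def.lean`). Let `Y` be any variety, of any dimension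
`w ≥ n`, with a dominant rational map `Y ⇢ V`; no condition is imposed on this map. Let `Y ⇢ W` be a
dominant rational map of finite degree `r` to any variety `W`. So, `Y` is a correspondence between `W`
and `V`, with `r` points over a general point of `W`, and of dimension `dim W ≥ dim V`.

**Theorem.** Let `m ≥ 7 N + 4`, `(M + 1) N < m + M + 2` and `D + N ≤ m + 2`. If
`k r < (N + 1) (m + 2 - N)` then the smooth projective models of `W` have at least `k` linearly independent
holomorphic `n`-forms, `h⁰(W, Ω^n) ≥ k`. In particular `H⁰(W, (Ω¹)^{⊗ n}) ≠ 0` if
`r < (N + 1) (m + 2 - N)`.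

So the varieties `W` are not rationally connected, and Q1 holds for all these varieties: no
correspondence of degree less than `(N + 1) (m + 2 - N)` can destroy the forms. Since the holomorphic
forms of `W` come from the base of the maximal rationally connected fibration of `W`, the dimension
of this base is at least `n`. For smooth complete intersections of the type `(d_1, ..., d_q)` in
`ℙ^(n+q)` one has `m = ∑ d_i - n - q - 1`, `D = max d_i`, `M + 1 = n + q`. With the best `N` the bound is
`(6 / 49 - o(1)) m ^ 2` if `M ≤ 5` and `max d_i ≤ 6 m / 7`, and `(M / (M + 1) ^ 2 - o(1)) m ^ 2` if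
`M ≥ 6` and `max d_i ≤ M m / (M + 1)`.

If `w = n` this says that `p_g(W) ≥ k`. For instance (`W` a projective space, or the product of
a projective line and another variety) the degree of irrationality and the covering gonality of `V` are
at least `(N + 1) (m + 2 - N)`, for every smooth complete intersection `V`.

## Proof

The trace from `Y` to `W` of the pull-back of a regular `n`-form is a regular `n`-form. Suppose that the
traces of the pull-backs of all `P(x) ω₀` are zero. Let `D_1, ..., D_n` be vector fields on `W` such that
`ω₀` does not vanish on their lifts to `Y`. The values of the traces on the `D_i` give a relation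
`∑ κ(ρ) P(ρ x) = 0` between the values of the forms `P` at the points `ρ : K → Ω` of `V` below the points
of `Y` over the generic point of `W`, where `Ω` is an algebraically closed field over the function field
of `W`. The coefficients `κ(ρ)` are not zero, because the points of `Y` over the same point `ρ` give the
same contribution. These at most `r` points are generic points of `V`. But fewer than
`(N + 1) (m + 2 - N)` generic points of `V` impose independent conditions on the forms of degree `m`: see
`MP_31564d_ag.CompleteIntersections`. For `k` forms one takes `k` independent generic points of `W`. The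
`k` fibres are disjoint, so the values of the traces at the `k` points span a space of dimension `k`.

The parts for this theorem were formalised by helper2, helper11, helper340, helper774, helper823,
helper152, helper383, helper252, helper339, helper401, helper273, helper403, helper681 and helper364, the
earlier parts which are used by helper565, helper279, helper543, helper488, helper570, helper80 and
others; the statements and the assembly by helper162.
-/

set_option autoImplicit false

open FF Pool.Agent.W602.GT Pool.Agent.N162.BC Pool.Agent.N162.GP

namespace Pool.Agent.Results.MP_4329d7_ag.FormsOnImages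

/-- `h⁰ (W, Ω^n) ≥ k` for the smooth projective varieties `W` of dimension `w` with the function field
`L`: there are `k` holomorphic forms of degree `n` which are linearly independent over `ℂ`. A form of
degree `n` is an alternating function of `n` rational vector fields; it is holomorphic if it takes
vector fields regular at `P` to functions regular at `P`, for all prime divisors `P`. -/
def HasForms (L : Type) [Field L] [Algebra ℂ L] (w n k : ℕ) : Prop :=
  ∃ η : Fin k → AlternatingMap L (Derivation ℂ L L) L (Fin n), LinearIndependent ℂ η ∧
    ∀ j, ∀ P : Place ℂ L, Divisorial w P → ∀ D : Fin n → Derivation ℂ L L,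
      (∀ i, DerReg P (D i)) → P.Reg (η j D)

/-- `H⁰ (W, (Ω¹) ^ ⊗ n) = 0` for the smooth projective varieties `W` of dimension `w` with the
function field `L`. -/
def NoTensors (L : Type) [Field L] [Algebra ℂ L] (w n : ℕ) : Prop :=
  ∀ T : MultilinearMap L (fun _ : Fin n => Derivation ℂ L L) L,
    (∀ P : Place ℂ L, Divisorial w P → ∀ D : Fin n → Derivation ℂ L L, (∀ j, DerReg P (D j)) →
      P.Reg (T D)) → T = 0

/-- **Tensor differentials on the varieties dominated by varieties over `V`.** (1) A smooth complete
intersection `V` of dimension `n ≥ 1` of hypersurfaces of the degrees `d i ≤ D` in projective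
`(M + 1)`-space is cut out by equations of degree at most `D`, and the forms of degree
`m = ∑ d i - M - 2` give regular canonical forms. (2) Let `V` be any such variety of dimension `n ≥ 1` in
projective `(M + 1)`-space, `M ≥ 1`, with the function field `K`, and let `m ≥ 7 N + 4`,
`(M + 1) N < m + M + 2`, `D + N ≤ m + 2`. Let `R ⊇ K` be the function field of a variety `Y` which
dominates `V`, and let `L ⊆ R` be the function field of a variety `W` of dimension `w` such that `R` is
finite over `L`. If `k * [R : L] < (N + 1) (m + 2 - N)` then `h⁰ (W, Ω^n) ≥ k`; so
`H⁰ (W, (Ω¹) ^ ⊗ n) ≠ 0` if `[R : L] < (N + 1) (m + 2 - N)`. -/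
theorem result :
    (∀ (M n q m D : ℕ) (K : Type) [Field K] [Algebra ℂ K]
      (F : Fin q → MvPolynomial (Fin (M + 2)) ℂ) (d : Fin q → ℕ) (x : Fin (M + 2) → K),
      SmoothCI F d x → 1 ≤ n → Algebra.trdeg ℂ K = n → n + q = M + 1 → m + M + 2 = ∑ i, d i →
      (∀ i, d i ≤ D) → 1 ≤ D → LowDegree n m D x) ∧
    ∀ (M n m D N w : ℕ) (K R L : Type) [Field K] [Algebra ℂ K] [Field R] [Algebra ℂ R]
      [Algebra K R] [IsScalarTower ℂ K R] [Field L] [Algebra ℂ L] [Algebra.EssFiniteType ℂ L]
      [Algebra L R] [IsScalarTower ℂ L R] [FiniteDimensional L R] (x : Fin (M + 2) → K),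
      1 ≤ n → LowDegree n m D x → 1 ≤ M → 7 * N + 4 ≤ m → (M + 1) * N < m + M + 2 →
      D + N ≤ m + 2 → Algebra.trdeg ℂ L = w →
      (∀ k : ℕ, k * Module.finrank L R < (N + 1) * (m + 2 - N) → HasForms L w n k) ∧
      (Module.finrank L R < (N + 1) * (m + 2 - N) → ¬ NoTensors L w n) := by
  refine ⟨fun M n q m D K _ _ F d x h hn hK hq hm hD hD1 =>
    lowDegree_of_smoothCI fCIC fCIA h hn hK hq hm hD hD1, ?_⟩
  intro M n m D N w K R L _ _ _ _ _ _ _ _ _ _ _ _ x hn h hM hm hN hD hL
  obtain ⟨ω₀, hω₀⟩ := h.forms
  have hk : ∀ k : ℕ, k * Module.finrank L R < (N + 1) * (m + 2 - N) → HasForms L w n k :=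
    fun k hr => forms_k fINX hM hm hN hD h.one h.gen h.dim h.cut hω₀ fTNF fTRS fKGP hn (R := R) hL hr
  refine ⟨hk, fun hr hno => ?_⟩
  obtain ⟨η, h1, h2⟩ := hk 1 (by rwa [one_mul])
  apply h1.ne_zero 0
  have h3 := hno (η 0).toMultilinearMap (h2 0)
  ext D
  exact DFunLike.congr_fun h3 D

end Pool.Agent.Results.MP_4329d7_ag.FormsOnImages
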