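import Pool.Agent.N95.TD.Hol

/-!
MP_4329d7_ag, Q1: multi-valued maps to generic complete intersections give holomorphic forms.

Let `K` be an algebraically closed field of characteristic `0` (for instance the complex numbers), and
`k` a subfield. `GenericCI k K` is a complete intersection `X` in a projective space, generic over `k`
(`Pool/Agent/N111/GI/Maps.lean`): the intersection of a closed subset `V`, defined over the algebraic
closure of `k` in `K`, of dimension at most `m`, and of hypersurfaces `F a = 0` of degrees `d a`, where
the ratios of the coefficients of `F a` to one of them are, for all `a` together, algebraically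
independent over `k` (for `K = ℂ` and `k` countable these are very general complete intersections).
Let `S` be the sum of the numbers `d a + 1`.

Let `M` be any variety over `K`, with function field `L`, of dimension `n`. `FormVanish K L n q`
(`Pool/Agent/N95/TD/Frm.lean`) says that `H⁰ (M, Ω ^ q) = 0` for the smooth projective models of `M`:
each alternating function of `q` rational vector fields which is regular along all prime divisors is
zero. As `Ω ^ q` is contained in `(Ω ¹) ^ ⊗ q`, this holds for all `q ≥ 1` if `M` has no nonzero tensor
differentials.

**Theorem.** (1) Let `φ` be a rational map from `M` to the symmetric power `Sym^R X`, with image of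
dimension `w ≥ 1`, and let `ρ` be the smaller of the numbers `R` and `w`. If `d a ≥ ρ` for all `a`, and
`S + w ≥ (ρ + 1) m + R`, then `H⁰ (M, Ω ^ w) ≠ 0`. So `H⁰ (M, (Ω ¹) ^ ⊗ w) ≠ 0`.

(2) Let `ρ` be the smaller of the numbers `R` and `n`, let `m ≥ 1`, `d a ≥ ρ` for all `a`, and
`S + ρ ≥ (ρ + 1) m + R`. If `H⁰ (M, Ω ^ q) = 0` for `1 ≤ q ≤ n`, in particular if `M` has no nonzero
tensor differentials, then the multi-valued maps with at most `R` values from `M` to `X` are constant,
and so are those to the varieties which are finite over the symmetric powers of `X`: let `Y ⇢ M` be a
dominant rational map of finite degree `q`; if `q ≤ R` then all rational maps from `Y` to `X` are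
constant; if `q r ≤ R` then all rational maps from `Y` to a closed subset `Z` of a projective space with
a closed correspondence `SymCor Φ X r` to `X` are constant, for instance if `Z` is a projective variety
with a finite morphism to `Sym^r X`.

So all varieties `M` with non-constant maps as in (1) or (2) have tensor differentials, and the degrees
`q ≤ dim M` suffice to see this. No condition is imposed on `M`, `Y` and the maps, and the dimensions of
`M` and of the images are arbitrary.

A rational map to `Sym^R X` (`SymMap`, in `Pool/Agent/N95/RF/Sym.lean`) is a cycle of `R` points of `X`
with coordinates in the algebraic closure of `L` which is stable under the automorphisms over `L`; `w`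
is the transcendence degree over `K` of the field generated by `φ.values`, the ratios of the
coordinates of these points. The function field of `Y` is `L'`, the rational map to `X` is the point `x`
of `X` with coordinates in `L'`, and it is constant if the ratios of its coordinates are in `K`. The
correspondences `SymCor Φ X r` (`Pool/Agent/N95/RF/Cor.lean`) from `Z = {Φ = 0}` to `X` are the closed
subsets `Γ` of `Z × X` such that, for all points `z` of `Z` over all algebraically closed extensions `Ω`
of `K`, the set `Γ_z` of the points `x` of `X` with `(z, x)` in `Γ` has at least one and at most `r`
elements, and `z` is defined over each algebraically closed field between `K` and `Ω` over which all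
points in `Γ_z` are defined.

The proof: at most `w` of the points of the cycle are such that the others are algebraic over them. For
these, a canonical form on the variety with function field `K (x_1, …)` is obtained as a minor of the
matrix of the derivatives of the coordinates of all the points, under the derivations over `K` and under
the derivations dual to the coefficients of the equations, combined to deformations of the equations
which fix all or all but one of the points. The products of this form and of `R - 1` coordinates of each
point are regular, without any assumption on the relations between the points. One of the traces of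
these products is a nonzero regular `w`-form on the base of the fibration of `M` defined by `φ`. For (2),
the direct image under `Y ⇢ M` of a cycle over `Y` is a cycle over `M`.
-/

set_option autoImplicit false
set_option linter.overlappingInstances false

namespace Pool.Agent.Results.MP_4329d7_ag.MultivaluedTensors

open Pool.Agent.N111.GI (GenericCI)
open Pool.Agent.N95.GH (OnSet)
open Pool.Agent.N95.RF (SymMap SymCor)
open Pool.Agent.N95.TD (FormVanish)

/-- **Multi-valued maps to generic complete intersections give holomorphic forms.** -/
theorem result {k K : Type} [Field k] [Field K] [IsAlgClosed K] [CharZero K] [Algebra k K]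
    -- the function field of any variety `M` of dimension `n`
    {L : Type} [Field L] [Algebra K L] [Algebra.EssFiniteType K L] {n : ℕ}
    (hn : Algebra.trdeg K L = n)
    -- the generic complete intersection
    (X : GenericCI k K) (R : ℕ) :
    -- (1) rational maps from `M` to `Sym^R X`
    (∀ (φ : SymMap k K L X R) (w : ℕ),
      Algebra.trdeg K (IntermediateField.adjoin K φ.values) = w → 1 ≤ w →
      (∀ a, min R w ≤ X.d a) → (min R w + 1) * X.m + R ≤ ∑ a, (X.d a + 1) + w →
      ¬ FormVanish K L n w) ∧
    -- (2) `M` without holomorphic forms
    (1 ≤ X.m → (∀ a, min R n ≤ X.d a) →
      (min R n + 1) * X.m + R ≤ ∑ a, (X.d a + 1) + min R n →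
      (∀ q, 1 ≤ q → q ≤ n → FormVanish K L n q) →
      ∀ (L' : Type) [Field L'] [Algebra K L'] [Algebra L L'] [IsScalarTower K L L']
        [FiniteDimensional L L'],
        -- rational maps from the covering `Y` of `M` to `X`
        (Module.finrank L L' ≤ R → ∀ x : Fin (X.n + 1) → L', X.Point x → ∀ i j, x j ≠ 0 →
          ∃ c : K, algebraMap K L' c = x i / x j) ∧
        -- rational maps from `Y` to `Z = {Φ = 0}`
        ∀ (N r : ℕ) (Φ : Set (MvPolynomial (Fin (N + 1)) K)), SymCor Φ X r →
          Module.finrank L L' * r ≤ R → ∀ z : Fin (N + 1) → L', OnSet Φ z → ∀ i j, z j ≠ 0 →
            ∃ c : K, algebraMap K L' c = z i / z j) :=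
  ⟨fun φ _ hw hw1 hd hS => Pool.Agent.N95.TD.sym_form hn φ hw hw1 hd hS,
    fun hm hd hS hT _ _ _ _ _ _ =>
      ⟨fun hr _ hx i j hj => Pool.Agent.N95.TD.hpt_const (L := L) hn hT hm hd hS hr hx
        ⟨i, j, hj, rfl⟩,
      fun _ _ _ C hr _ hz _ _ hj =>
        Pool.Agent.N95.TD.hmap_const (L := L) hn hT hm hd hS C hr hz hj⟩⟩

end Pool.Agent.Results.MP_4329d7_ag.MultivaluedTensors
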